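import Mathlib

set_option autoImplicit false

open WithZero

namespace Pool.Agent.Helper93.VD

open IsDedekindDomain IntermediateField

open scoped IntermediateField.algebraAdjoinAdjoin

lemma fin1 {A B : Type*} [CommRing A] [Nontrivial A] [CommRing B] [Algebra A B]
    (h : Function.Bijective (algebraMap A B)) : Module.finrank A B = 1 := by
  have e := LinearEquiv.ofBijective (Algebra.linearMap A B) h
  rw [← e.finrank_eq, Module.finrank_self]

theorem lemA {lam E : Type} [Field lam] [Field E] [Algebra lam E] [CharZero E] (t : E)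
    [FiniteDimensional (IntermediateField.adjoin lam {t}) E] (ℓ D0 : ℕ)
    (hD : ¬ ℓ ∣ D0) (ht0 : t ≠ 0)
    (good : Valuation E ℤᵐ⁰ → Prop)
    (h1 : ∀ w : Valuation E ℤᵐ⁰, (∀ a : lam, a ≠ 0 → w (algebraMap lam E a) = 1) → w t < 1 →
      good w ∨ ∃ m : ℤ, w t = exp ((ℓ : ℤ) * m))
    (h2 : ∀ w : Valuation E ℤᵐ⁰, (∀ a : lam, a ≠ 0 → w (algebraMap lam E a) = 1) → w t < 1 →
      Function.Surjective w → good w →
        w t = exp (-(D0 : ℤ)) ∧ ∀ z, w z ≤ 1 → ∃ a : lam, w (z - algebraMap lam E a) < 1)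
    (h3 : ∀ w w' : Valuation E ℤᵐ⁰, (∀ a : lam, a ≠ 0 → w (algebraMap lam E a) = 1) → w t < 1 →
      (∀ a : lam, a ≠ 0 → w' (algebraMap lam E a) = 1) → w' t < 1 → good w → good w' →
        w.IsEquiv w')
    (O : ValuationSubring E) (hO1 : ∀ a : lam, algebraMap lam E a ∈ O) (hO2 : O.valuation t < 1)
    (hO3 : ∀ w : Valuation E ℤᵐ⁰, (∀ a : lam, a ≠ 0 → w (algebraMap lam E a) = 1) → w t < 1 →
      w.valuationSubring ≤ O → good w) :
    ¬ ℓ ∣ Module.finrank (IntermediateField.adjoin lam {t}) E := by
  classical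
  let R := Algebra.adjoin lam ({t} : Set E)
  let K := IntermediateField.adjoin lam ({t} : Set E)
  let f : Polynomial lam →+* R :=
    ((Polynomial.aeval (⟨t, Algebra.self_mem_adjoin_singleton lam t⟩ : R)) :
      Polynomial lam →ₐ[lam] R).toRingHom
  have hfval : ∀ q : Polynomial lam, ((f q : R) : E) = Polynomial.aeval t q := by
    intro q
    have := (Polynomial.aeval_algHom_apply R.val
      (⟨t, Algebra.self_mem_adjoin_singleton lam t⟩ : R) q)
    exact this.symm
  have hfs : Function.Surjective f := by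
    rintro ⟨r, hr⟩
    have hr' : r ∈ Algebra.adjoin lam ({t} : Set E) := hr
    rw [Algebra.adjoin_singleton_eq_range_aeval] at hr'
    obtain ⟨q, hq⟩ := hr'
    exact ⟨q, Subtype.ext ((hfval q).trans hq)⟩
  haveI : IsPrincipalIdealRing R := IsPrincipalIdealRing.of_surjective f hfs
  haveI : IsDedekindDomain R := inferInstance
  let tR : R := ⟨t, Algebra.self_mem_adjoin_singleton lam t⟩
  have htR0 : tR ≠ 0 := fun h => ht0 (congrArg Subtype.val h)
  let p : Ideal R := Ideal.span {tR}
  have hp0 : p ≠ ⊥ := by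
    intro h
    exact htR0 (Ideal.span_singleton_eq_bot.mp h)
  have hRO : ∀ r : R, (r : E) ∈ O := by
    intro r
    obtain ⟨q, rfl⟩ := hfs r
    rw [hfval]
    have htO : t ∈ O := (O.valuation_le_one_iff t).mp hO2.le
    rw [Polynomial.aeval_eq_sum_range]
    refine sum_mem fun i _ => ?_
    rw [Algebra.smul_def]
    exact mul_mem (hO1 _) (pow_mem htO i)
  have hpO : ∀ r : R, r ∈ p → O.valuation (r : E) < 1 := by
    intro r hr
    obtain ⟨s, rfl⟩ := Ideal.mem_span_singleton'.mp hr
    have : ((s * tR : R) : E) = (s : E) * t := rfl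
    rw [this, map_mul]
    exact lt_of_le_of_lt (mul_le_of_le_one_left' ((O.valuation_le_one_iff _).mpr (hRO s))) hO2
  have hp1 : p ≠ ⊤ := by
    intro h
    have := hpO 1 (h ▸ Submodule.mem_top)
    simp at this
  haveI hpmax : p.IsMaximal := by
    rw [Ideal.isMaximal_iff]
    refine ⟨fun h => hp1 ((Ideal.eq_top_iff_one _).mpr h), ?_⟩
    intro J x hJ hx hxJ
    obtain ⟨q, rfl⟩ := hfs x
    have hq : f q = f (Polynomial.divX q) * tR + f (Polynomial.C (q.coeff 0)) := by
      conv_lhs => rw [← Polynomial.divX_mul_X_add q]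
      rw [map_add, map_mul]
      congr 2
      simp [f, tR]
    have hc : q.coeff 0 ≠ 0 := by
      intro h
      apply hx
      rw [hq, h]
      simp only [map_zero, add_zero]
      exact Ideal.mul_mem_left _ _ (Ideal.subset_span rfl)
    have h5 : f (Polynomial.C (q.coeff 0)) ∈ J := by
      have : f (Polynomial.C (q.coeff 0)) = f q - f (Polynomial.divX q) * tR := by rw [hq]; ring
      rw [this]
      exact J.sub_mem hxJ (J.mul_mem_left _ (hJ (Ideal.subset_span rfl)))
    have h6 : (1 : R) = f (Polynomial.C (q.coeff 0)⁻¹) * f (Polynomial.C (q.coeff 0)) := by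
      rw [← map_mul, ← Polynomial.C_mul, inv_mul_cancel₀ hc, Polynomial.C_1, map_one]
    rw [h6]
    exact J.mul_mem_left _ h5
  let S := integralClosure R E
  haveI : Algebra.IsSeparable K E := inferInstance
  haveI : IsDedekindDomain S := IsIntegralClosure.isDedekindDomain R K E S
  haveI : Module.Finite R S := IsIntegralClosure.finite R K E S
  haveI : IsFractionRing S E := integralClosure.isFractionRing_of_finite_extension K E
  have hsum := Ideal.sum_ramification_inertia S K E (p := p) hp0
  let v : HeightOneSpectrum R := ⟨p, hpmax.isPrime, hp0⟩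
  -- the valuation of a prime over `p`
  let wp : ∀ P : Ideal S, P.IsPrime → P.LiesOver p → HeightOneSpectrum S := fun P hP hPp =>
    ⟨P, hP, by
      haveI := hP
      haveI := hPp
      exact Ideal.ne_bot_of_liesOver_of_ne_bot hp0 P⟩
  have hlam : ∀ (a : lam) (u : HeightOneSpectrum S), a ≠ 0 →
      u.valuation E (algebraMap lam E a) = 1 := by
    intro a u ha
    have key : ∀ b : lam, u.valuation E (algebraMap lam E b) ≤ 1 := by
      intro b
      have : algebraMap lam E b = algebraMap S E (algebraMap R S (algebraMap lam R b)) := rfl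
      rw [this]
      exact u.valuation_le_one _
    refine le_antisymm (key a) ?_
    have h5 := key a⁻¹
    rw [map_inv₀, map_inv₀] at h5
    have h6 : u.valuation E (algebraMap lam E a) ≠ 0 := by
      rw [Valuation.ne_zero_iff]
      exact (map_ne_zero _).mpr ha
    exact (inv_le_one₀ (zero_lt_iff.mpr h6)).mp h5
  have hval : ∀ (P : Ideal S) (hP : P.IsPrime) (hPp : P.LiesOver p),
      (wp P hP hPp).valuation E t = exp (-(p.ramificationIdx' P : ℤ)) := by
    intro P hP hPp
    haveI : (wp P hP hPp).asIdeal.LiesOver v.asIdeal := hPp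
    have h5 := HeightOneSpectrum.valuation_liesOver (K := K) E v (wp P hP hPp)
      (algebraMap R K tR)
    rw [HeightOneSpectrum.valuation_of_algebraMap,
      HeightOneSpectrum.intValuation_singleton v htR0 rfl] at h5
    have h6 : algebraMap K E (algebraMap R K tR) = t := rfl
    rw [h6] at h5
    rw [← h5, ← exp_nsmul]
    congr 1
    simp [v, wp]
  have hlt : ∀ (P : Ideal S) (hP : P.IsPrime) (hPp : P.LiesOver p),
      (wp P hP hPp).valuation E t < 1 := by
    intro P hP hPp
    change (wp P hP hPp).valuation E (algebraMap S E (algebraMap R S tR)) < 1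
    rw [HeightOneSpectrum.valuation_lt_one_iff_mem]
    have h5 : tR ∈ P.under R := by
      rw [← hPp.over]
      exact Ideal.subset_span rfl
    exact h5
  -- the prime from `O`
  have hSO : ∀ s : S, (s : E) ∈ O := by
    intro s
    have hs : IsIntegral R (s : E) := s.2
    have h5 : IsIntegral O (s : E) := by
      let φ : R →+* O := (R.val : R →+* E).codRestrict O.toSubring hRO
      exact hs.map_of_comp_eq φ (RingHom.id E) (RingHom.ext fun _ => rfl)
    obtain ⟨z, hz⟩ := IsIntegrallyClosed.isIntegral_iff.mp h5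
    rw [← hz]
    exact z.2
  let φ : S →+* O := (S.val : S →+* E).codRestrict O.toSubring hSO
  let P0 : Ideal S := Ideal.comap φ (IsLocalRing.maximalIdeal O)
  have hP0mem : ∀ s : S, s ∈ P0 ↔ O.valuation (s : E) < 1 := by
    intro s
    rw [Ideal.mem_comap, O.valuation_lt_one_iff]
    rfl
  have hP0 : P0.IsPrime := Ideal.IsPrime.comap φ
  have hP0p : P0.LiesOver p := by
    constructor
    refine hpmax.eq_of_le ?_ ?_
    · intro h
      have h5 : (1 : R) ∈ P0.under R := h ▸ Submodule.mem_top
      have h6 : (algebraMap R S 1) ∈ P0 := h5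
      rw [map_one] at h6
      exact hP0.ne_top ((Ideal.eq_top_iff_one _).mpr h6)
    · intro r hr
      have h6 : (algebraMap R S r) ∈ P0 := by
        rw [hP0mem]
        exact hpO r hr
      exact h6
  have hgood0 : good ((wp P0 hP0 hP0p).valuation E) := by
    refine hO3 _ (fun a ha => hlam a _ ha) (hlt P0 hP0 hP0p) ?_
    intro z hz
    have hz' : (wp P0 hP0 hP0p).valuation E z ≤ 1 := hz
    obtain ⟨n, d, hnd⟩ := HeightOneSpectrum.exists_primeCompl_mul_eq_of_integer _ z hz'
    have h5 : ¬ O.valuation ((d : S) : E) < 1 := by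
      rw [← hP0mem]
      exact d.2
    have h6 : O.valuation ((d : S) : E) = 1 :=
      le_antisymm ((O.valuation_le_one_iff _).mpr (hSO _)) (not_lt.mp h5)
    have h7 : O.valuation z * O.valuation ((d : S) : E) = O.valuation (n : E) := by
      rw [← map_mul]
      exact congrArg _ hnd
    rw [h6, mul_one] at h7
    rw [← O.valuation_le_one_iff, h7]
    exact (O.valuation_le_one_iff _).mpr (hSO _)
  have hmem0 : P0 ∈ IsDedekindDomain.primesOverFinset p S :=
    (IsDedekindDomain.mem_primesOverFinset_iff hp0 _).mpr ⟨hP0, hP0p⟩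
  rw [← Finset.add_sum_erase _ _ hmem0] at hsum
  have hrest : ℓ ∣ ∑ P ∈ (IsDedekindDomain.primesOverFinset p S).erase P0,
      p.ramificationIdx' P * p.inertiaDeg' P := by
    refine Finset.dvd_sum fun P hPm => ?_
    obtain ⟨hne, hPm⟩ := Finset.mem_erase.mp hPm
    obtain ⟨hP, hPp⟩ := (IsDedekindDomain.mem_primesOverFinset_iff hp0 _).mp hPm
    rcases h1 ((wp P hP hPp).valuation E) (fun a ha => hlam a _ ha) (hlt P hP hPp) with
      hg | ⟨m, hm⟩
    · exfalso
      have h5 := h3 _ _ (fun a ha => hlam a _ ha) (hlt P hP hPp) (fun a ha => hlam a _ ha)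
        (hlt P0 hP0 hP0p) hg hgood0
      have h6 := HeightOneSpectrum.eq_of_valuation_isEquiv_valuation h5
      exact hne (congrArg HeightOneSpectrum.asIdeal h6)
    · rw [hval P hP hPp, exp_inj] at hm
      refine Dvd.dvd.mul_right ?_ _
      have h5 : ((p.ramificationIdx' P : ℕ) : ℤ) = (ℓ : ℤ) * (-m) := by linarith
      exact Int.natCast_dvd_natCast.mp ⟨-m, h5⟩
  obtain ⟨he, hf⟩ := h2 _ (fun a ha => hlam a _ ha) (hlt P0 hP0 hP0p)
    (HeightOneSpectrum.valuation_surjective E _) hgood0
  have he0 : p.ramificationIdx' P0 = D0 := by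
    rw [hval P0 hP0 hP0p, exp_inj] at he
    have : ((p.ramificationIdx' P0 : ℕ) : ℤ) = (D0 : ℤ) := by linarith
    exact_mod_cast this
  haveI := hP0
  haveI := hP0p
  have hf0 : p.inertiaDeg' P0 = 1 := by
    rw [Ideal.inertiaDeg'_algebraMap]
    refine fin1 (A := R ⧸ p) (B := S ⧸ P0) ⟨(injective_iff_map_eq_zero (algebraMap (R ⧸ p) (S ⧸ P0))).mpr fun z hz => ?_, ?_⟩
    · obtain ⟨r, rfl⟩ := Ideal.Quotient.mk_surjective z
      have h5 : Ideal.Quotient.mk P0 (algebraMap R S r) = 0 := hz
      rw [Ideal.Quotient.eq_zero_iff_mem] at h5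
      rw [Ideal.Quotient.eq_zero_iff_mem]
      have h6 : r ∈ P0.under R := h5
      rwa [← hP0p.over] at h6
    intro z
    obtain ⟨s, rfl⟩ := Ideal.Quotient.mk_surjective z
    obtain ⟨a, ha⟩ := hf (algebraMap S E s) (HeightOneSpectrum.valuation_le_one _ _)
    refine ⟨Ideal.Quotient.mk p (algebraMap lam R a), ?_⟩
    have h5 : s - algebraMap R S (algebraMap lam R a) ∈ P0 := by
      have : algebraMap S E s - algebraMap lam E a
        = algebraMap S E (s - algebraMap R S (algebraMap lam R a)) := by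
          rw [map_sub]; rfl
      rw [this] at ha
      exact (HeightOneSpectrum.valuation_lt_one_iff_mem _ _).mp ha
    have h6 : algebraMap (R ⧸ p) (S ⧸ P0) (Ideal.Quotient.mk p (algebraMap lam R a))
        = Ideal.Quotient.mk P0 (algebraMap R S (algebraMap lam R a)) := rfl
    rw [h6]
    exact (Ideal.Quotient.eq.mpr h5).symm
  rw [he0, hf0, mul_one] at hsum
  intro hdiv
  rw [← hsum] at hdiv
  exact hD ((Nat.dvd_add_left hrest).mp hdiv)

end Pool.Agent.Helper93.VD
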