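import Mathlib

set_option autoImplicit false

open WithZero

namespace Pool.Agent.Helper93.VD

section val

variable {k E Γ : Type*} [Field k] [Field E] [Algebra k E] [LinearOrderedCommGroupWithZero Γ]
  (w : Valuation E Γ)

/-- closeness of polynomial values -/
lemma poly_close {σ : Type*} (hk : ∀ a : k, w (algebraMap k E a) ≤ 1) (z z' : σ → E)
    (hz : ∀ i, w (z i) ≤ 1) (hz' : ∀ i, w (z' i) ≤ 1) (hd : ∀ i, w (z i - z' i) < 1)
    (f : MvPolynomial σ k) :
    w (MvPolynomial.aeval z f) ≤ 1 ∧ w (MvPolynomial.aeval z' f) ≤ 1 ∧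
      w (MvPolynomial.aeval z f - MvPolynomial.aeval z' f) < 1 := by
  induction f using MvPolynomial.induction_on with
  | C a => simp [hk a]
  | add p q hp hq =>
    obtain ⟨a1, a2, a3⟩ := hp
    obtain ⟨b1, b2, b3⟩ := hq
    simp only [map_add]
    refine ⟨w.map_add_le a1 b1, w.map_add_le a2 b2, ?_⟩
    have : MvPolynomial.aeval z p + MvPolynomial.aeval z q
        - (MvPolynomial.aeval z' p + MvPolynomial.aeval z' q)
        = (MvPolynomial.aeval z p - MvPolynomial.aeval z' p)
          + (MvPolynomial.aeval z q - MvPolynomial.aeval z' q) := by ring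
    rw [this]
    exact w.map_add_lt a3 b3
  | mul_X p i hp =>
    obtain ⟨a1, a2, a3⟩ := hp
    simp only [map_mul, MvPolynomial.aeval_X]
    refine ⟨mul_le_one' a1 (hz i), mul_le_one' a2 (hz' i), ?_⟩
    have : MvPolynomial.aeval z p * z i - MvPolynomial.aeval z' p * z' i
        = (MvPolynomial.aeval z p - MvPolynomial.aeval z' p) * z i
          + MvPolynomial.aeval z' p * (z i - z' i) := by ring
    rw [this]
    refine w.map_add_lt ?_ ?_
    · rw [map_mul]
      exact lt_of_le_of_lt (mul_le_of_le_one_right' (hz i)) a3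
    · rw [map_mul]
      exact lt_of_le_of_lt (mul_le_of_le_one_left' a2) (hd i)

lemma one_of_close {a b : E} (hb : w b = 1) (h : w (a - b) < 1) : w a = 1 := by
  have h1 : w (a - b) < w b := by rw [hb]; exact h
  have h2 := Valuation.map_add_eq_of_lt_left w h1
  rw [add_sub_cancel] at h2
  rw [h2, hb]

lemma close_symm {a b : E} (h : w (a - b) < 1) : w (b - a) < 1 := by
  rwa [Valuation.map_sub_swap]

lemma pow_close {a b : E} (ha : w a ≤ 1) (hb : w b ≤ 1) (h : w (a - b) < 1) (n : ℕ) :
    w (a ^ n - b ^ n) < 1 := by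
  induction n with
  | zero => simp
  | succ n ih =>
    have : a ^ (n + 1) - b ^ (n + 1) = (a ^ n - b ^ n) * a + b ^ n * (a - b) := by ring
    rw [this]
    refine w.map_add_lt ?_ ?_
    · rw [map_mul]
      exact lt_of_le_of_lt (mul_le_of_le_one_right' ha) ih
    · rw [map_mul, map_pow]
      exact lt_of_le_of_lt (mul_le_of_le_one_left' (pow_le_one' hb n)) h

lemma aeval_smul_hom {σ : Type*} [Fintype σ] {n : ℕ} {f : MvPolynomial σ k}
    (hf : f.IsHomogeneous n) (c : E) (z : σ → E) :
    MvPolynomial.aeval (fun i => c * z i) f = c ^ n * MvPolynomial.aeval z f := by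
  rw [MvPolynomial.aeval_def, MvPolynomial.aeval_def, MvPolynomial.eval₂_eq',
    MvPolynomial.eval₂_eq', Finset.mul_sum]
  refine Finset.sum_congr rfl fun d hd => ?_
  have h1 := hf (MvPolynomial.mem_support_iff.mp hd)
  have h2 : ∑ i, d i = n := by
    rw [← h1]
    simp [Finsupp.weight_apply, Finsupp.sum_fintype]
  rw [← h2]
  simp only [mul_pow, Finset.prod_mul_distrib, Finset.prod_pow_eq_pow_sum]
  ring

/-! polynomials in an element with a pole -/

variable {κ : Type*} [Field κ] [Algebra κ E]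

lemma pol_lt (hκ : ∀ a : κ, a ≠ 0 → w (algebraMap κ E a) = 1) {X0 : E} (hX : 1 < w X0)
    (f : Polynomial κ) (m : ℕ) (hf : f.degree < m) :
    w (Polynomial.aeval X0 f) < w X0 ^ m := by
  have hX0 : w X0 ≠ 0 := (lt_trans zero_lt_one hX).ne'
  by_cases h0 : f = 0
  · subst h0
    simp only [map_zero]
    exact pow_pos (zero_lt_iff.mpr hX0) m
  rw [Polynomial.aeval_eq_sum_range]
  refine w.map_sum_lt (pow_ne_zero _ hX0) fun i hi => ?_
  have hn : f.natDegree < m := (Polynomial.natDegree_lt_iff_degree_lt h0).mpr hf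
  have hi' : i < m := lt_of_lt_of_le (Finset.mem_range.mp hi) hn
  rw [Algebra.smul_def, map_mul, map_pow]
  by_cases hc : f.coeff i = 0
  · rw [hc]
    simp only [map_zero, zero_mul]
    exact pow_pos (zero_lt_iff.mpr hX0) m
  · rw [hκ _ hc, one_mul]
    exact pow_lt_pow_right₀ hX hi'

lemma pol_eq (hκ : ∀ a : κ, a ≠ 0 → w (algebraMap κ E a) = 1) {X0 : E} (hX : 1 < w X0)
    (f : Polynomial κ) (hf : f ≠ 0) :
    w (Polynomial.aeval X0 f) = w X0 ^ f.natDegree := by
  have h1 : Polynomial.aeval X0 f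
      = Polynomial.aeval X0 f.eraseLead + algebraMap κ E f.leadingCoeff * X0 ^ f.natDegree := by
    conv_lhs => rw [← f.eraseLead_add_monomial_natDegree_leadingCoeff]
    rw [map_add, Polynomial.aeval_monomial]
  have h2 : w (algebraMap κ E f.leadingCoeff * X0 ^ f.natDegree) = w X0 ^ f.natDegree := by
    rw [map_mul, map_pow, hκ _ (Polynomial.leadingCoeff_ne_zero.mpr hf), one_mul]
  have h3 : w (Polynomial.aeval X0 f.eraseLead) < w X0 ^ f.natDegree := by
    apply pol_lt w hκ hX
    have := Polynomial.degree_eraseLead_lt hf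
    rwa [Polynomial.degree_eq_natDegree hf] at this
  rw [h1, Valuation.map_add_eq_of_lt_right w (by rwa [h2]), h2]

/-- the residues at the pole -/
lemma residue_pol (hκ : ∀ a : κ, a ≠ 0 → w (algebraMap κ E a) = 1) {X0 : E} (hX : 1 < w X0)
    (hgen : ∀ z : E, ∃ r s : Polynomial κ, z = Polynomial.aeval X0 r / Polynomial.aeval X0 s)
    (z : E) (hz : w z ≤ 1) : ∃ a : κ, w (z - algebraMap κ E a) < 1 := by
  have hX0 : w X0 ≠ 0 := (lt_trans zero_lt_one hX).ne'
  obtain ⟨r, s, rfl⟩ := hgen z
  by_cases hs : s = 0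
  · exact ⟨0, by simp [hs]⟩
  by_cases hr : r = 0
  · exact ⟨0, by simp [hr]⟩
  rw [map_div₀, pol_eq w hκ hX r hr, pol_eq w hκ hX s hs] at hz
  have hle : r.natDegree ≤ s.natDegree := by
    by_contra hlt
    push Not at hlt
    have h5 := pow_lt_pow_right₀ hX hlt
    have h6 : 1 < w X0 ^ r.natDegree / w X0 ^ s.natDegree := by
      rw [one_lt_div₀ (pow_pos (zero_lt_iff.mpr hX0) _)]
      exact h5
    exact absurd hz (not_le.mpr h6)
  have hb : s.leadingCoeff ≠ 0 := Polynomial.leadingCoeff_ne_zero.mpr hs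
  have hs' : Polynomial.aeval X0 s ≠ 0 := by
    intro h
    have := pol_eq w hκ hX s hs
    rw [h, map_zero] at this
    exact pow_ne_zero _ hX0 this.symm
  refine ⟨r.coeff s.natDegree / s.leadingCoeff, ?_⟩
  have h1 : Polynomial.aeval X0 r / Polynomial.aeval X0 s
      - algebraMap κ E (r.coeff s.natDegree / s.leadingCoeff)
      = Polynomial.aeval X0 (r - Polynomial.C (r.coeff s.natDegree / s.leadingCoeff) * s)
        / Polynomial.aeval X0 s := by
    rw [map_sub, map_mul, Polynomial.aeval_C]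
    field_simp
  rw [h1, map_div₀, pol_eq w hκ hX s hs, div_lt_one₀ (pow_pos (zero_lt_iff.mpr hX0) _)]
  apply pol_lt w hκ hX
  rw [Polynomial.degree_lt_iff_coeff_zero]
  intro m hm
  rcases hm.lt_or_eq with h | h
  · rw [Polynomial.coeff_sub, Polynomial.coeff_C_mul,
      Polynomial.coeff_eq_zero_of_natDegree_lt (lt_of_le_of_lt hle h),
      Polynomial.coeff_eq_zero_of_natDegree_lt h]
    simp
  · subst h
    rw [Polynomial.coeff_sub, Polynomial.coeff_C_mul]
    change r.coeff s.natDegree - r.coeff s.natDegree / s.leadingCoeff * s.leadingCoeff = 0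
    rw [div_mul_cancel₀ _ hb, sub_self]

end val

end Pool.Agent.Helper93.VD
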