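import Mathlib
import Pool.Agent.Helper93.VD.B

set_option autoImplicit false

open WithZero

namespace Pool.Agent.Helper93.VD

section good

variable {k E : Type*} [Field k] [Field E] [Algebra k E] {N : ℕ} (M1 G0 : ℕ)
  (x : Fin (N + 1) → E) (g : Fin (N + 1) → MvPolynomial (Fin (N + 1)) k)

/-- constants -/
noncomputable def cc (j : Fin (N + 1)) : k := (MvPolynomial.eval (Pi.single 0 1) (g j)) ^ M1

/-- the coordinates of the projection -/
noncomputable def yE (j : Fin (N + 1)) : E := x j * (MvPolynomial.aeval x (g j)) ^ M1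

noncomputable def uE (j : Fin N) : E := x j.succ * x 0 ^ (M1 * G0)

noncomputable def yn (j : Fin N) : E := algebraMap k E (cc M1 g j.succ)⁻¹ * yE M1 x g j.succ

noncomputable def rho (j : Fin (N + 1)) : E := (MvPolynomial.aeval x (g j) / x 0 ^ G0) ^ M1

lemma yE_eq (hx0 : x 0 ≠ 0) (j : Fin (N + 1)) :
    yE M1 x g j = x j * x 0 ^ (M1 * G0) * rho M1 G0 x g j := by
  unfold yE rho
  rw [div_pow, mul_comm M1 G0, pow_mul]
  field_simp

variable {Γ : Type*} [LinearOrderedCommGroupWithZero Γ] (w : Valuation E Γ)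

lemma k_one (hk : ∀ a : k, w (algebraMap k E a) ≤ 1) (a : k) (ha : a ≠ 0) :
    w (algebraMap k E a) = 1 := by
  refine le_antisymm (hk a) ?_
  have h5 := hk a⁻¹
  rw [map_inv₀, map_inv₀] at h5
  have h6 : w (algebraMap k E a) ≠ 0 := by
    rw [Valuation.ne_zero_iff]
    exact (map_ne_zero _).mpr ha
  exact (inv_le_one₀ (zero_lt_iff.mpr h6)).mp h5

lemma rho_close (hg : ∀ j, (g j).IsHomogeneous G0) (hk : ∀ a : k, w (algebraMap k E a) ≤ 1)
    (hx0 : x 0 ≠ 0) (hx : ∀ j, j ≠ 0 → w (x j) < w (x 0)) (j : Fin (N + 1)) :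
    w (rho M1 G0 x g j) ≤ 1 ∧ w (rho M1 G0 x g j - algebraMap k E (cc M1 g j)) < 1 := by
  have hw0 : 0 < w (x 0) := zero_lt_iff.mpr ((Valuation.ne_zero_iff w).mpr hx0)
  have h1 : MvPolynomial.aeval x (g j) / x 0 ^ G0
      = MvPolynomial.aeval (fun i => x i / x 0) (g j) := by
    have h2 := aeval_smul_hom (hg j) (x 0) (fun i => x i / x 0)
    have h3 : (fun i => x 0 * (x i / x 0)) = x := by
      funext i
      field_simp
    rw [h3] at h2
    rw [h2]
    field_simp
  have h4 : MvPolynomial.aeval (fun i => algebraMap k E ((Pi.single 0 1 : Fin (N + 1) → k) i)) (g j)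
      = algebraMap k E (MvPolynomial.eval (Pi.single 0 1) (g j)) := by
    have := MvPolynomial.aeval_algebraMap_apply (A := k) E (Pi.single 0 1 : Fin (N + 1) → k) (g j)
    rw [MvPolynomial.aeval_eq_eval] at this
    exact this
  have hz : ∀ i, w (x i / x 0) ≤ 1 := by
    intro i
    rw [map_div₀, div_le_one₀ hw0]
    by_cases hi : i = 0
    · rw [hi]
    · exact (hx i hi).le
  obtain ⟨a1, a2, a3⟩ := poly_close w hk (fun i => x i / x 0)
    (fun i => algebraMap k E ((Pi.single 0 1 : Fin (N + 1) → k) i)) hz (fun i => hk _) (by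
      intro i
      by_cases hi : i = 0
      · subst hi
        simp [div_self hx0]
      · simp only [Pi.single_apply, hi, if_false, map_zero, sub_zero]
        rw [map_div₀, div_lt_one₀ hw0]
        exact hx i hi) (g j)
  rw [← h1] at a1 a3
  rw [h4] at a2 a3
  unfold rho cc
  refine ⟨by rw [map_pow]; exact pow_le_one' a1 M1, ?_⟩
  rw [map_pow]
  exact pow_close w a1 a2 a3 M1

lemma rho_one (hg : ∀ j, (g j).IsHomogeneous G0) (hk : ∀ a : k, w (algebraMap k E a) ≤ 1)
    (hc : ∀ j, MvPolynomial.eval (Pi.single 0 1) (g j) ≠ 0)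
    (hx0 : x 0 ≠ 0) (hx : ∀ j, j ≠ 0 → w (x j) < w (x 0)) (j : Fin (N + 1)) :
    w (rho M1 G0 x g j) = 1 :=
  one_of_close w (k_one w hk _ (pow_ne_zero _ (hc j))) (rho_close M1 G0 x g w hg hk hx0 hx j).2

lemma y0_val (hg : ∀ j, (g j).IsHomogeneous G0) (hk : ∀ a : k, w (algebraMap k E a) ≤ 1)
    (hc : ∀ j, MvPolynomial.eval (Pi.single 0 1) (g j) ≠ 0)
    (hx0 : x 0 ≠ 0) (hx : ∀ j, j ≠ 0 → w (x j) < w (x 0)) :
    w (yE M1 x g 0) = w (x 0) ^ (1 + M1 * G0) := by
  rw [yE_eq M1 G0 x g hx0, map_mul, rho_one M1 G0 x g w hg hk hc hx0 hx, mul_one, map_mul, map_pow,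
    pow_add, pow_one]

lemma u_y (hg : ∀ j, (g j).IsHomogeneous G0) (hk : ∀ a : k, w (algebraMap k E a) ≤ 1)
    (hc : ∀ j, MvPolynomial.eval (Pi.single 0 1) (g j) ≠ 0)
    (hx0 : x 0 ≠ 0) (hx : ∀ j, j ≠ 0 → w (x j) < w (x 0)) (j : Fin N) :
    w (yE M1 x g j.succ) = w (uE M1 G0 x j) := by
  rw [yE_eq M1 G0 x g hx0, map_mul, rho_one M1 G0 x g w hg hk hc hx0 hx, mul_one]
  rfl

lemma yn_close (hg : ∀ j, (g j).IsHomogeneous G0) (hk : ∀ a : k, w (algebraMap k E a) ≤ 1)
    (hc : ∀ j, MvPolynomial.eval (Pi.single 0 1) (g j) ≠ 0)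
    (hx0 : x 0 ≠ 0) (hx : ∀ j, j ≠ 0 → w (x j) < w (x 0))
    (hu : ∀ j, w (uE M1 G0 x j) = 1) (j : Fin N) :
    w (yn M1 x g j) = 1 ∧ w (uE M1 G0 x j - yn M1 x g j) < 1 := by
  have hcj : cc M1 g j.succ ≠ 0 := pow_ne_zero _ (hc _)
  have hce : algebraMap k E (cc M1 g j.succ) ≠ 0 := (map_ne_zero _).mpr hcj
  constructor
  · unfold yn
    rw [map_mul, k_one w hk _ (inv_ne_zero hcj), one_mul, u_y M1 G0 x g w hg hk hc hx0 hx, hu]
  · have h1 : uE M1 G0 x j - yn M1 x g j
        = -(uE M1 G0 x j * algebraMap k E (cc M1 g j.succ)⁻¹ *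
          (rho M1 G0 x g j.succ - algebraMap k E (cc M1 g j.succ))) := by
      unfold yn
      rw [yE_eq M1 G0 x g hx0, map_inv₀]
      unfold uE
      field_simp
      ring
    rw [h1, Valuation.map_neg, map_mul, map_mul, hu, k_one w hk _ (inv_ne_zero hcj), one_mul,
      one_mul]
    exact (rho_close M1 G0 x g w hg hk hx0 hx _).2

/-! fields generated by families -/

lemma adj_one {ι : Type*} (z : ι → E)
    (H : ∀ h : MvPolynomial ι k, h ≠ 0 → w (MvPolynomial.aeval z h) = 1) (a : E)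
    (ha : a ∈ IntermediateField.adjoin k (Set.range z)) (ha0 : a ≠ 0) : w a = 1 := by
  obtain ⟨r, s, rfl⟩ := (IntermediateField.mem_adjoin_range_iff k z a).mp ha
  have hr : r ≠ 0 := by rintro rfl; simp at ha0
  have hs : s ≠ 0 := by rintro rfl; simp at ha0
  rw [map_div₀, H r hr, H s hs, div_one]

lemma adj_approx {ι : Type*} (z z' : ι → E)
    (H : ∀ h : MvPolynomial ι k, h ≠ 0 → w (MvPolynomial.aeval z h) = 1)
    (H' : ∀ h : MvPolynomial ι k, h ≠ 0 → w (MvPolynomial.aeval z' h) = 1)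
    (Hc : ∀ h : MvPolynomial ι k, w (MvPolynomial.aeval z h - MvPolynomial.aeval z' h) < 1) (a : E)
    (ha : a ∈ IntermediateField.adjoin k (Set.range z)) :
    ∃ b ∈ IntermediateField.adjoin k (Set.range z'), w (a - b) < 1 := by
  obtain ⟨r, s, rfl⟩ := (IntermediateField.mem_adjoin_range_iff k z a).mp ha
  by_cases hs : s = 0
  · exact ⟨0, zero_mem _, by simp [hs]⟩
  refine ⟨MvPolynomial.aeval z' r / MvPolynomial.aeval z' s,
    (IntermediateField.mem_adjoin_range_iff k z' _).mpr ⟨r, s, rfl⟩, ?_⟩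
  have h1 : MvPolynomial.aeval z s ≠ 0 := by
    intro h; have := H s hs; rw [h] at this; simp at this
  have h2 : MvPolynomial.aeval z' s ≠ 0 := by
    intro h; have := H' s hs; rw [h] at this; simp at this
  have hle : ∀ h : MvPolynomial ι k, w (MvPolynomial.aeval z' h) ≤ 1 := by
    intro h
    by_cases h0 : h = 0
    · simp [h0]
    · exact (H' h h0).le
  have h3 : MvPolynomial.aeval z r / MvPolynomial.aeval z s
      - MvPolynomial.aeval z' r / MvPolynomial.aeval z' s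
      = ((MvPolynomial.aeval z r - MvPolynomial.aeval z' r) * MvPolynomial.aeval z' s
        + MvPolynomial.aeval z' r * (MvPolynomial.aeval z' s - MvPolynomial.aeval z s))
        / (MvPolynomial.aeval z s * MvPolynomial.aeval z' s) := by
    field_simp
    ring
  rw [h3, map_div₀, map_mul, H s hs, H' s hs, mul_one, div_one]
  refine w.map_add_lt ?_ ?_
  · rw [map_mul, H' s hs, mul_one]
    exact Hc r
  · rw [map_mul]
    exact lt_of_le_of_lt (mul_le_of_le_one_left' (hle r)) (close_symm w (Hc s))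

lemma gen (hx0 : x 0 ≠ 0) (hgen : IntermediateField.adjoin k (Set.range x) = ⊤) (z : E) :
    ∃ r s : Polynomial (IntermediateField.adjoin k (Set.range (uE M1 G0 x))),
      z = Polynomial.aeval (x 0) r / Polynomial.aeval (x 0) s := by
  rw [← IntermediateField.mem_adjoin_simple_iff]
  set κ := IntermediateField.adjoin k (Set.range (uE M1 G0 x)) with hκ
  have h0 : x 0 ∈ IntermediateField.adjoin κ ({x 0} : Set E) :=
    IntermediateField.mem_adjoin_simple_self κ (x 0)
  have h1 : IntermediateField.adjoin k (Set.range x)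
      ≤ (IntermediateField.adjoin κ ({x 0} : Set E)).restrictScalars k := by
    rw [IntermediateField.adjoin_le_iff]
    rintro _ ⟨i, rfl⟩
    refine Fin.cases ?_ (fun j => ?_) i
    · exact h0
    · have h2 : x j.succ = uE M1 G0 x j / x 0 ^ (M1 * G0) := by
        unfold uE
        field_simp
      rw [h2]
      have h3 : uE M1 G0 x j ∈ κ := IntermediateField.subset_adjoin k _ ⟨j, rfl⟩
      have h4 : uE M1 G0 x j ∈ IntermediateField.adjoin κ ({x 0} : Set E) :=
        IntermediateField.algebraMap_mem _ (⟨_, h3⟩ : κ)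
      exact div_mem h4 (pow_mem h0 _)
  have h5 : z ∈ IntermediateField.adjoin k (Set.range x) := by rw [hgen]; trivial
  exact h1 h5

end good

section equiv

variable {E κ : Type*} [Field E] [Field κ] [Algebra κ E]

lemma val_iff {Γ : Type*} [LinearOrderedCommGroupWithZero Γ] (w : Valuation E Γ)
    (hκ : ∀ a : κ, a ≠ 0 → w (algebraMap κ E a) = 1) {X0 : E} (hX : 1 < w X0)
    (r s : Polynomial κ) (hr : r ≠ 0) (hs : s ≠ 0) :
    w (Polynomial.aeval X0 r / Polynomial.aeval X0 s) ≤ 1 ↔ r.natDegree ≤ s.natDegree := by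
  have hX0 : w X0 ≠ 0 := (lt_trans zero_lt_one hX).ne'
  rw [map_div₀, pol_eq w hκ hX r hr, pol_eq w hκ hX s hs,
    div_le_one₀ (pow_pos (zero_lt_iff.mpr hX0) _)]
  exact pow_le_pow_iff_right₀ hX

lemma good_equiv (w w' : Valuation E ℤᵐ⁰)
    (hκ : ∀ a : κ, a ≠ 0 → w (algebraMap κ E a) = 1)
    (hκ' : ∀ a : κ, a ≠ 0 → w' (algebraMap κ E a) = 1) {X0 : E} (hX : 1 < w X0) (hX' : 1 < w' X0)
    (hgen : ∀ z : E, ∃ r s : Polynomial κ, z = Polynomial.aeval X0 r / Polynomial.aeval X0 s) :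
    w.IsEquiv w' := by
  rw [Valuation.isEquiv_iff_val_le_one]
  intro z
  obtain ⟨r, s, rfl⟩ := hgen z
  by_cases hr : r = 0
  · simp [hr]
  by_cases hs : s = 0
  · simp [hs]
  rw [val_iff w hκ hX r s hr hs, val_iff w' hκ' hX' r s hr hs]

lemma surj_one (w : Valuation E ℤᵐ⁰) (hκ : ∀ a : κ, a ≠ 0 → w (algebraMap κ E a) = 1) {X0 : E}
    (hX : 1 < w X0)
    (hgen : ∀ z : E, ∃ r s : Polynomial κ, z = Polynomial.aeval X0 r / Polynomial.aeval X0 s)
    (hs : Function.Surjective w) : w X0 = exp 1 := by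
  have hX0 : w X0 ≠ 0 := (lt_trans zero_lt_one hX).ne'
  obtain ⟨z, hz⟩ := hs (exp 1)
  obtain ⟨r, s, rfl⟩ := hgen z
  have hr : r ≠ 0 := by
    rintro rfl
    rw [map_zero, zero_div, map_zero] at hz
    exact exp_ne_zero hz.symm
  have hs' : s ≠ 0 := by
    rintro rfl
    rw [map_zero, div_zero, map_zero] at hz
    exact exp_ne_zero hz.symm
  rw [map_div₀, pol_eq w hκ hX r hr, pol_eq w hκ hX s hs'] at hz
  obtain ⟨n, hn⟩ : ∃ n : ℤ, w X0 = exp n := ⟨log (w X0), (exp_log hX0).symm⟩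
  rw [hn] at hz hX ⊢
  rw [← exp_nsmul, ← exp_nsmul, ← exp_sub, exp_inj] at hz
  have hn0 : 0 < n := by
    rw [← exp_zero, exp_lt_exp] at hX
    exact hX
  have h1 : n ∣ 1 := by
    refine ⟨(r.natDegree : ℤ) - s.natDegree, ?_⟩
    rw [← hz]
    simp only [nsmul_eq_mul]
    ring
  rw [Int.eq_one_of_dvd_one hn0.le h1]

end equiv

end Pool.Agent.Helper93.VD
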