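import Mathlib
import Pool.Agent.Helper93.VD.C

set_option autoImplicit false

open WithZero

namespace Pool.Agent.Helper93.VD

section alg

variable {k E : Type} [Field k] [Field E] [Algebra k E] {N : ℕ} (M1 G0 : ℕ)
  (x : Fin (N + 1) → E) (g : Fin (N + 1) → MvPolynomial (Fin (N + 1)) k)

lemma aeval_mem {σ : Type*} (Ω : IntermediateField k E) (z : σ → E) (hz : ∀ i, z i ∈ Ω)
    (p : MvPolynomial σ k) : MvPolynomial.aeval z p ∈ Ω := by
  induction p using MvPolynomial.induction_on with
  | C a => rw [MvPolynomial.aeval_C]; exact Ω.algebraMap_mem a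
  | add p q hp hq => rw [map_add]; exact Ω.add_mem hp hq
  | mul_X p i hp => rw [map_mul, MvPolynomial.aeval_X]; exact Ω.mul_mem hp (hz i)

/-- elements bounded by all valuation rings over a subfield are algebraic -/
lemma alg_of_val (F : IntermediateField k E) (z : E)
    (h : ∀ V : ValuationSubring E, (F : Set E) ⊆ V.toSubring → z ∈ V) : IsAlgebraic F z := by
  have h1 : z ∈ (integralClosure (Subring.closure (F : Set E)) E).toSubring := by
    rw [← iInf_valuationSubring_superset, Subring.mem_iInf]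
    rintro ⟨V, hV⟩
    exact h V hV
  have h2 : IsIntegral (Subring.closure (F : Set E)) z := h1
  have h3 : ∀ a : Subring.closure (F : Set E), (a : E) ∈ F.toSubfield.toSubring := fun a =>
    (Subring.closure_le (t := F.toSubfield.toSubring)).mpr (fun _ hb => hb) a.2
  let φ : Subring.closure (F : Set E) →+* F :=
    (Subring.closure (F : Set E)).subtype.codRestrict F h3
  exact (h2.map_of_comp_eq φ (RingHom.id E) (RingHom.ext fun _ => rfl)).isAlgebraic

lemma x_alg (hg : ∀ j, (g j).IsHomogeneous G0)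
    (hx0 : x 0 ≠ 0) (hG : ∀ j, MvPolynomial.aeval x (g j) ≠ 0)
    (hval : ∀ O : ValuationSubring E, (∀ a : k, algebraMap k E a ∈ O) → ∃ j0, ∀ i j,
      O.valuation (x i * (MvPolynomial.aeval x (g j)) ^ M1) ≤ O.valuation (yE M1 x g j0))
    (i : Fin (N + 1)) :
    IsAlgebraic (IntermediateField.adjoin k (Set.range (yE M1 x g))) (x i) := by
  set F := IntermediateField.adjoin k (Set.range (yE M1 x g)) with hF
  have hz : ∀ i j, IsAlgebraic F (x i * (MvPolynomial.aeval x (g j)) ^ M1) := by
    intro i j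
    refine alg_of_val F _ fun V hV => ?_
    obtain ⟨j0, hj0⟩ := hval V (fun a => hV (F.algebraMap_mem a))
    have h2 : V.valuation (yE M1 x g j0) ≤ 1 :=
      (V.valuation_le_one_iff _).mpr (hV (IntermediateField.subset_adjoin k _ ⟨j0, rfl⟩))
    exact (V.valuation_le_one_iff _).mp ((hj0 i j).trans h2)
  let Ω := (algebraicClosure F E).restrictScalars k
  have hmem : ∀ z : E, z ∈ Ω ↔ IsAlgebraic F z := fun z => mem_algebraicClosure_iff
  have hr : ∀ i, x i / x 0 ∈ Ω := by
    intro i
    have h1 : x i / x 0 = (x i * (MvPolynomial.aeval x (g 0)) ^ M1)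
        / (x 0 * (MvPolynomial.aeval x (g 0)) ^ M1) := by
      have := pow_ne_zero M1 (hG 0)
      field_simp
    rw [h1]
    exact Ω.div_mem ((hmem _).mpr (hz i 0)) ((hmem _).mpr (hz 0 0))
  have h1 : MvPolynomial.aeval x (g 0) / x 0 ^ G0
      = MvPolynomial.aeval (fun i => x i / x 0) (g 0) := by
    have h2 := aeval_smul_hom (hg 0) (x 0) (fun i => x i / x 0)
    have h3 : (fun i => x 0 * (x i / x 0)) = x := by
      funext i
      field_simp
    rw [h3] at h2
    rw [h2]
    field_simp
  have h2 : rho M1 G0 x g 0 ∈ Ω := by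
    unfold rho
    rw [h1]
    exact pow_mem (aeval_mem Ω _ hr _) _
  have h3 : yE M1 x g 0 ∈ Ω := (hmem _).mpr (hz 0 0)
  have h4 : rho M1 G0 x g 0 ≠ 0 := pow_ne_zero _ (div_ne_zero (hG 0) (pow_ne_zero _ hx0))
  have h5 : x 0 ^ (1 + M1 * G0) ∈ Ω := by
    have : x 0 ^ (1 + M1 * G0) = yE M1 x g 0 / rho M1 G0 x g 0 := by
      rw [yE_eq M1 G0 x g hx0]
      field_simp
      rw [pow_add, pow_one]
    rw [this]
    exact Ω.div_mem h3 h2
  have h6 : x 0 ∈ Ω := (hmem _).mpr (IsAlgebraic.of_pow (by omega) ((hmem _).mp h5))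
  have h7 : x i = x i / x 0 * x 0 := by field_simp
  rw [h7]
  exact (hmem _).mp (Ω.mul_mem (hr i) h6)

lemma top_alg (F : IntermediateField k E) (hgen : IntermediateField.adjoin k (Set.range x) = ⊤)
    (h : ∀ i, IsAlgebraic F (x i)) : Algebra.IsAlgebraic F E ∧ FiniteDimensional F E := by
  have h1 : IntermediateField.adjoin F (Set.range x) = ⊤ := by
    rw [← top_le_iff]
    intro z _
    have h2 : IntermediateField.adjoin k (Set.range x)
        ≤ (IntermediateField.adjoin F (Set.range x)).restrictScalars k := by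
      rw [IntermediateField.adjoin_le_iff]
      exact IntermediateField.subset_adjoin F _
    have h3 : z ∈ IntermediateField.adjoin k (Set.range x) := by rw [hgen]; trivial
    exact h2 h3
  have h4 : FiniteDimensional F (IntermediateField.adjoin F (Set.range x)) := by
    apply IntermediateField.finiteDimensional_adjoin
    rintro _ ⟨i, rfl⟩
    exact (h i).isIntegral
  rw [h1] at h4
  have h5 : FiniteDimensional F E :=
    (IntermediateField.topEquiv (F := F) (E := E)).toLinearEquiv.finiteDimensional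
  exact ⟨inferInstance, h5⟩

open scoped IntermediateField.algebraAdjoinAdjoin in
lemma ind_of_alg (hx : AlgebraicIndependent k x) (z : Fin (N + 1) → E)
    (h : Algebra.IsAlgebraic (IntermediateField.adjoin k (Set.range z)) E) :
    AlgebraicIndependent k z := by
  haveI : Algebra.IsAlgebraic (Algebra.adjoin k (Set.range z)) E :=
    Algebra.IsAlgebraic.trans _ (IntermediateField.adjoin k (Set.range z)) E
  have h2 : Cardinal.lift.{0} (Cardinal.mk (Fin (N + 1))) ≤ Cardinal.lift.{0} (Algebra.trdeg k E) := by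
    exact hx.lift_cardinalMk_le_trdeg
  exact (Algebra.IsAlgebraic.isTranscendenceBasis_of_lift_le_trdeg_of_finite k z h2).1

open scoped IntermediateField.algebraAdjoinAdjoin in
lemma not_alg (hx : AlgebraicIndependent k x) (z : Fin N → E) :
    ¬ Algebra.IsAlgebraic (IntermediateField.adjoin k (Set.range z)) E := by
  intro h
  haveI : Algebra.IsAlgebraic (Algebra.adjoin k (Set.range z)) E :=
    Algebra.IsAlgebraic.trans _ (IntermediateField.adjoin k (Set.range z)) E
  have h1 := Algebra.IsAlgebraic.trdeg_le_cardinalMk k (Set.range z)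
  have h2 : Cardinal.mk (Fin (N + 1)) ≤ Algebra.trdeg k E := hx.cardinalMk_le_trdeg
  have h3 : Cardinal.mk (Set.range z) ≤ Cardinal.mk (Fin N) := Cardinal.mk_range_le
  have h4 := (h2.trans h1).trans h3
  rw [Cardinal.mk_fin, Cardinal.mk_fin] at h4
  have h5 : N + 1 ≤ N := by exact_mod_cast h4
  omega

/-- existence of the place -/
lemma exists_O (hx : AlgebraicIndependent k x)
    (hgen : IntermediateField.adjoin k (Set.range x) = ⊤) :
    ∃ O : ValuationSubring E,
      (∀ a ∈ IntermediateField.adjoin k (Set.range (uE M1 G0 x)), a ∈ O) ∧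
        1 < O.valuation (x 0) := by
  have hx0 : x 0 ≠ 0 := hx.ne_zero 0
  set κ := IntermediateField.adjoin k (Set.range (uE M1 G0 x)) with hκ
  have hnalg : ¬ IsAlgebraic κ (x 0) := by
    intro h
    refine not_alg x hx (uE M1 G0 x) (top_alg x _ hgen fun i => ?_).1
    refine Fin.cases h (fun j => ?_) i
    have h2 : x j.succ = uE M1 G0 x j / x 0 ^ (M1 * G0) := by
      unfold uE
      field_simp
    rw [h2, div_eq_mul_inv]
    have h3 : uE M1 G0 x j ∈ κ := IntermediateField.subset_adjoin k _ ⟨j, rfl⟩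
    exact (isAlgebraic_algebraMap (⟨_, h3⟩ : κ)).mul (h.pow _).inv
  let s : E := (x 0)⁻¹
  let A := Algebra.adjoin κ ({s} : Set E)
  let sA : A.toSubring := ⟨s, Algebra.self_mem_adjoin_singleton κ s⟩
  let I : Ideal A.toSubring := Ideal.span {sA}
  have hI : I ≠ ⊤ := by
    intro h
    have h1 : (1 : A.toSubring) ∈ I := h ▸ Submodule.mem_top
    obtain ⟨q, hq⟩ := Ideal.mem_span_singleton'.mp h1
    have hq1 : (q : E) * s = 1 := congrArg Subtype.val hq
    have hq2 : (q : E) ∈ Algebra.adjoin κ ({s} : Set E) := q.2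
    rw [Algebra.adjoin_singleton_eq_range_aeval] at hq2
    obtain ⟨f, hf⟩ := hq2
    have hf' : Polynomial.aeval s f = (q : E) := hf
    apply hnalg
    have h2 : IsAlgebraic κ s := by
      refine ⟨f * Polynomial.X - 1, ?_, ?_⟩
      · intro h0
        have := congrArg (fun r => Polynomial.coeff r 0) h0
        simp at this
      · rw [map_sub, map_mul, Polynomial.aeval_X, hf', hq1, map_one, sub_self]
    have h3 : x 0 = s⁻¹ := (inv_inv _).symm
    rw [h3]
    exact h2.inv
  obtain ⟨B, hB1, hB2⟩ := Ideal.image_subset_nonunits_valuationSubring I hI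
  refine ⟨B, fun a ha => hB1 (A.algebraMap_mem (⟨a, ha⟩ : κ)), ?_⟩
  have h1 : s ∈ B.nonunits := hB2 ⟨sA, Ideal.subset_span rfl, rfl⟩
  rw [ValuationSubring.mem_nonunits_iff] at h1
  have h2 : B.valuation s = (B.valuation (x 0))⁻¹ := map_inv₀ _ _
  rw [h2] at h1
  exact (inv_lt_one₀ (zero_lt_iff.mpr ((Valuation.ne_zero_iff _).mpr hx0))).mp h1

end alg

end Pool.Agent.Helper93.VD
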