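import Mathlib
import Pool.Agent.Helper93.VD.A
import Pool.Agent.Helper93.VD.D

set_option autoImplicit false

open WithZero

namespace Pool.Agent.Helper93.VD

section fin

variable {k E : Type} [Field k] [Field E] [Algebra k E] {N : ℕ} (M1 G0 : ℕ)
  (x : Fin (N + 1) → E) (g : Fin (N + 1) → MvPolynomial (Fin (N + 1)) k)

/-- the field of constants -/
noncomputable abbrev lamF : IntermediateField k E := IntermediateField.adjoin k (Set.range (yn M1 x g))

lemma y_mem_lam (hc : ∀ j, MvPolynomial.eval (Pi.single 0 1) (g j) ≠ 0) (j : Fin N) :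
    yE M1 x g j.succ ∈ lamF M1 x g := by
  have hcj : cc M1 g j.succ ≠ 0 := pow_ne_zero _ (hc _)
  have hce : algebraMap k E (cc M1 g j.succ) ≠ 0 := (map_ne_zero _).mpr hcj
  have h1 : yE M1 x g j.succ = algebraMap k E (cc M1 g j.succ) * yn M1 x g j := by
    unfold yn
    rw [map_inv₀, mul_inv_cancel_left₀ hce]
  rw [h1]
  exact mul_mem (IntermediateField.algebraMap_mem _ _)
    (IntermediateField.subset_adjoin k _ ⟨j, rfl⟩)

/-- the family of generators -/
noncomputable def zz : Fin (N + 1) → E := Fin.cons (yE M1 x g 0)⁻¹ (yn M1 x g)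

lemma adj_zz (hc : ∀ j, MvPolynomial.eval (Pi.single 0 1) (g j) ≠ 0) :
    IntermediateField.adjoin k (Set.range (zz M1 x g))
      = IntermediateField.adjoin k (Set.range (yE M1 x g)) := by
  apply le_antisymm
  · rw [IntermediateField.adjoin_le_iff]
    rintro _ ⟨i, rfl⟩
    refine Fin.cases ?_ (fun j => ?_) i
    · exact inv_mem (IntermediateField.subset_adjoin k _ ⟨0, rfl⟩)
    · exact mul_mem (IntermediateField.algebraMap_mem _ _)
        (IntermediateField.subset_adjoin k _ ⟨j.succ, rfl⟩)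
  · rw [IntermediateField.adjoin_le_iff]
    rintro _ ⟨i, rfl⟩
    refine Fin.cases ?_ (fun j => ?_) i
    · have h1 : (yE M1 x g 0)⁻¹ ∈ IntermediateField.adjoin k (Set.range (zz M1 x g)) :=
        IntermediateField.subset_adjoin k _ ⟨0, rfl⟩
      have h2 := inv_mem h1
      rwa [inv_inv] at h2
    · have h1 := y_mem_lam M1 x g hc j
      have h2 : lamF M1 x g ≤ IntermediateField.adjoin k (Set.range (zz M1 x g)) := by
        apply IntermediateField.adjoin.mono
        rintro _ ⟨j, rfl⟩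
        exact ⟨j.succ, rfl⟩
      exact h2 h1

lemma adj_lam (hc : ∀ j, MvPolynomial.eval (Pi.single 0 1) (g j) ≠ 0) :
    (IntermediateField.adjoin (lamF M1 x g) ({(yE M1 x g 0)⁻¹} : Set E)).restrictScalars k
      = IntermediateField.adjoin k (Set.range (yE M1 x g)) := by
  rw [IntermediateField.adjoin_adjoin_left, ← adj_zz M1 x g hc]
  congr 1
  ext z
  constructor
  · rintro (⟨j, rfl⟩ | h)
    · exact ⟨j.succ, rfl⟩
    · rw [Set.mem_singleton_iff] at h
      subst h
      exact ⟨0, rfl⟩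
  · rintro ⟨i, rfl⟩
    refine Fin.cases ?_ (fun j => ?_) i
    · exact Or.inr rfl
    · exact Or.inl ⟨j, rfl⟩

lemma transfer (L : IntermediateField k E) (K' : IntermediateField L E) (F : IntermediateField k E)
    (h : K'.restrictScalars k = F) (hF : FiniteDimensional F E) :
    FiniteDimensional K' E ∧ Module.finrank K' E = Module.finrank F E := by
  subst h
  exact ⟨hF, rfl⟩

theorem main [CharZero k] (ℓ : ℕ) (hN : 0 < N) (hℓ : ℓ.Prime) (hℓM : ℓ ∣ M1) (hM : 0 < M1)
    (hx : AlgebraicIndependent k x)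
    (hgen : IntermediateField.adjoin k (Set.range x) = ⊤)
    (hg : ∀ j, (g j).IsHomogeneous G0)
    (hc : ∀ j, MvPolynomial.eval (Pi.single 0 1) (g j) ≠ 0)
    (hval : ∀ O : ValuationSubring E, (∀ a : k, algebraMap k E a ∈ O) → ∃ j0, ∀ i j,
      O.valuation (x i * (MvPolynomial.aeval x (g j)) ^ M1) ≤ O.valuation (yE M1 x g j0)) :
    AlgebraicIndependent k (yE M1 x g) ∧
    FiniteDimensional (IntermediateField.adjoin k (Set.range (yE M1 x g))) E ∧
    ¬ ℓ ∣ Module.finrank (IntermediateField.adjoin k (Set.range (yE M1 x g))) E := by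
  classical
  haveI : CharZero E := charZero_of_injective_algebraMap (algebraMap k E).injective
  have hx0 : x 0 ≠ 0 := hx.ne_zero 0
  have hG : ∀ j, MvPolynomial.aeval x (g j) ≠ 0 := by
    intro j h
    have h1 : g j = 0 :=
      (injective_iff_map_eq_zero (MvPolynomial.aeval x : MvPolynomial (Fin (N + 1)) k →ₐ[k] E)).mp
        hx (g j) h
    exact hc j (by rw [h1, map_zero])
  set F := IntermediateField.adjoin k (Set.range (yE M1 x g)) with hFdef
  obtain ⟨halg, hfin⟩ := top_alg x F hgen (x_alg M1 G0 x g hg hx0 hG hval)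
  have hyind : AlgebraicIndependent k (yE M1 x g) := ind_of_alg x hx _ halg
  refine ⟨hyind, hfin, ?_⟩
  have hy0 : ∀ j, yE M1 x g j ≠ 0 := fun j => hyind.ne_zero j
  have hzind : AlgebraicIndependent k (zz M1 x g) := by
    apply ind_of_alg x hx
    rw [adj_zz M1 x g hc]
    exact halg
  have hynind : AlgebraicIndependent k (yn M1 x g) := by
    have := hzind.comp Fin.succ (Fin.succ_injective N)
    exact this
  have huind : AlgebraicIndependent k (uE M1 G0 x) := by
    have h1 : AlgebraicIndependent k (Fin.cons (x 0) (uE M1 G0 x) : Fin (N + 1) → E) := by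
      apply ind_of_alg x hx
      refine (top_alg x _ hgen fun i => ?_).1
      have h0 : x 0 ∈ IntermediateField.adjoin k
          (Set.range (Fin.cons (x 0) (uE M1 G0 x) : Fin (N + 1) → E)) :=
        IntermediateField.subset_adjoin k _ ⟨0, rfl⟩
      refine Fin.cases (isAlgebraic_algebraMap (⟨_, h0⟩ : IntermediateField.adjoin k
          (Set.range (Fin.cons (x 0) (uE M1 G0 x) : Fin (N + 1) → E)))) (fun j => ?_) i
      have h2 : x j.succ = uE M1 G0 x j / x 0 ^ (M1 * G0) := by
        unfold uE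
        field_simp
      have h3 : uE M1 G0 x j ∈ IntermediateField.adjoin k
          (Set.range (Fin.cons (x 0) (uE M1 G0 x) : Fin (N + 1) → E)) :=
        IntermediateField.subset_adjoin k _ ⟨j.succ, rfl⟩
      have h4 : x j.succ ∈ IntermediateField.adjoin k
          (Set.range (Fin.cons (x 0) (uE M1 G0 x) : Fin (N + 1) → E)) := by
        rw [h2]
        exact div_mem h3 (pow_mem h0 _)
      exact isAlgebraic_algebraMap (⟨_, h4⟩ : IntermediateField.adjoin k
          (Set.range (Fin.cons (x 0) (uE M1 G0 x) : Fin (N + 1) → E)))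
    exact h1.comp Fin.succ (Fin.succ_injective N)
  have hane : ∀ {ι : Type} (z : ι → E), AlgebraicIndependent k z →
      ∀ h : MvPolynomial ι k, h ≠ 0 → MvPolynomial.aeval z h ≠ 0 := by
    intro ι z hz h h0 h1
    exact h0 ((injective_iff_map_eq_zero
      (MvPolynomial.aeval z : MvPolynomial ι k →ₐ[k] E)).mp hz h h1)
  have hamem : ∀ {ι : Type} (z : ι → E) (h : MvPolynomial ι k),
      MvPolynomial.aeval z h ∈ IntermediateField.adjoin k (Set.range z) := fun z h =>
    aeval_mem _ z (fun i => IntermediateField.subset_adjoin k _ (Set.mem_range_self i)) h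
  set κ := IntermediateField.adjoin k (Set.range (uE M1 G0 x)) with hκdef
  have hgenκ := gen M1 G0 x hx0 hgen
  set t : E := (yE M1 x g 0)⁻¹ with htdef
  obtain ⟨hfin', hrank⟩ := transfer (lamF M1 x g) (IntermediateField.adjoin (lamF M1 x g) ({t} : Set E))
    F (adj_lam M1 x g hc) hfin
  rw [← hrank]
  -- consequences for good valuations
  have hcore : ∀ w : Valuation E ℤᵐ⁰, (∀ a : lamF M1 x g, a ≠ 0 → w (algebraMap _ E a) = 1) →
      w t < 1 → (∀ j, j ≠ 0 → w (x j) < w (x 0)) →
      w (yE M1 x g 0) = w (x 0) ^ (1 + M1 * G0) ∧ 1 < w (x 0) ∧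
      (∀ a : κ, a ≠ 0 → w (algebraMap κ E a) = 1) ∧
      (∀ a ∈ κ, ∃ b ∈ lamF M1 x g, w (a - b) < 1) := by
    intro w hw hwt hgood
    have hk : ∀ a : k, w (algebraMap k E a) ≤ 1 := by
      intro a
      by_cases ha : a = 0
      · simp [ha]
      · exact le_of_eq (hw (algebraMap k (lamF M1 x g) a) ((map_ne_zero _).mpr ha))
    have hy : ∀ j : Fin N, w (yE M1 x g j.succ) = 1 := fun j =>
      hw ⟨_, y_mem_lam M1 x g hc j⟩ (fun h => hy0 _ (congrArg Subtype.val h))
    have hu : ∀ j, w (uE M1 G0 x j) = 1 := fun j => by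
      rw [← u_y M1 G0 x g w hg hk hc hx0 hgood, hy]
    have hy0v := y0_val M1 G0 x g w hg hk hc hx0 hgood
    have hX : 1 < w (x 0) := by
      have h1 : 1 < w (yE M1 x g 0) := by
        rw [htdef, map_inv₀] at hwt
        exact (inv_lt_one₀ (zero_lt_iff.mpr ((Valuation.ne_zero_iff _).mpr (hy0 0)))).mp hwt
      rw [hy0v] at h1
      by_contra hle
      push Not at hle
      exact absurd h1 (not_lt.mpr (pow_le_one' hle _))
    have hc1 := yn_close M1 G0 x g w hg hk hc hx0 hgood hu
    have H' : ∀ h : MvPolynomial (Fin N) k, h ≠ 0 → w (MvPolynomial.aeval (yn M1 x g) h) = 1 :=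
      fun h h0 => hw ⟨_, hamem _ h⟩ (fun h1 => hane _ hynind h h0 (congrArg Subtype.val h1))
    have Hc : ∀ h : MvPolynomial (Fin N) k,
        w (MvPolynomial.aeval (uE M1 G0 x) h - MvPolynomial.aeval (yn M1 x g) h) < 1 := fun h =>
      (poly_close w hk _ _ (fun i => (hu i).le) (fun i => (hc1 i).1.le) (fun i => (hc1 i).2) h).2.2
    have H : ∀ h : MvPolynomial (Fin N) k, h ≠ 0 → w (MvPolynomial.aeval (uE M1 G0 x) h) = 1 :=
      fun h h0 => one_of_close w (H' h h0) (Hc h)
    exact ⟨hy0v, hX, fun a ha => adj_one w _ H a a.2 (fun h => ha (Subtype.ext h)),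
      fun a ha => adj_approx w _ _ H H' Hc a ha⟩
  obtain ⟨O, hOκ, hOx⟩ := exists_O M1 G0 x hx hgen
  -- facts on `O`
  have hκ1 : ∀ a ∈ κ, a ≠ 0 → O.valuation a = 1 := by
    intro a ha ha0
    refine le_antisymm ((O.valuation_le_one_iff a).mpr (hOκ a ha)) ?_
    have h5 := (O.valuation_le_one_iff a⁻¹).mpr (hOκ a⁻¹ (inv_mem ha))
    rw [map_inv₀] at h5
    exact (inv_le_one₀ (zero_lt_iff.mpr ((Valuation.ne_zero_iff _).mpr ha0))).mp h5
  have hkO : ∀ a : k, O.valuation (algebraMap k E a) ≤ 1 := fun a =>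
    (O.valuation_le_one_iff _).mpr (hOκ _ (IntermediateField.algebraMap_mem _ _))
  have huO : ∀ j, O.valuation (uE M1 G0 x j) = 1 := fun j =>
    hκ1 _ (IntermediateField.subset_adjoin k _ ⟨j, rfl⟩) (huind.ne_zero j)
  have hgoodO : ∀ j, j ≠ 0 → O.valuation (x j) < O.valuation (x 0) := by
    intro j hj
    obtain ⟨i, rfl⟩ := Fin.exists_succ_eq.mpr hj
    have h2 : x i.succ = uE M1 G0 x i / x 0 ^ (M1 * G0) := by
      unfold uE
      field_simp
    rw [h2, map_div₀, huO, map_pow]
    refine lt_of_le_of_lt ?_ hOx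
    rw [one_div]
    exact inv_le_one_of_one_le₀ (one_le_pow₀ hOx.le)
  have hcO := yn_close M1 G0 x g O.valuation hg hkO hc hx0 hgoodO huO
  have HcO : ∀ h : MvPolynomial (Fin N) k, O.valuation (MvPolynomial.aeval (uE M1 G0 x) h
      - MvPolynomial.aeval (yn M1 x g) h) < 1 := fun h =>
    (poly_close O.valuation hkO _ _ (fun i => (huO i).le) (fun i => (hcO i).1.le)
      (fun i => (hcO i).2) h).2.2
  have HO' : ∀ h : MvPolynomial (Fin N) k, h ≠ 0 →
      O.valuation (MvPolynomial.aeval (yn M1 x g) h) = 1 := fun h h0 =>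
    one_of_close O.valuation (hκ1 _ (hamem _ h) (hane _ huind h h0))
      (close_symm O.valuation (HcO h))
  have hlamO : ∀ a ∈ lamF M1 x g, a ≠ 0 → O.valuation a = 1 := fun a ha ha0 =>
    adj_one O.valuation _ HO' a ha ha0
  haveI := hfin'
  refine lemA t ℓ (1 + M1 * G0) ?_ (inv_ne_zero (hy0 0))
    (fun w => ∀ j, j ≠ 0 → w (x j) < w (x 0)) ?_ ?_ ?_ O ?_ ?_ ?_
  · intro h
    have h1 : ℓ ∣ M1 * G0 := hℓM.mul_right _
    have h2 : ℓ ∣ 1 := (Nat.dvd_add_left h1).mp h
    exact hℓ.one_lt.ne' (Nat.dvd_one.mp h2)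
  · intro w hw hwt
    by_cases hgood : ∀ j, j ≠ 0 → w (x j) < w (x 0)
    · exact Or.inl hgood
    right
    push Not at hgood
    obtain ⟨j, hj, hle0⟩ := hgood
    have hk : ∀ a : k, w (algebraMap k E a) ≤ 1 := by
      intro a
      by_cases ha : a = 0
      · simp [ha]
      · exact le_of_eq (hw (algebraMap k (lamF M1 x g) a) ((map_ne_zero _).mpr ha))
    have hy : ∀ j : Fin N, w (yE M1 x g j.succ) = 1 := fun j =>
      hw ⟨_, y_mem_lam M1 x g hc j⟩ (fun h => hy0 _ (congrArg Subtype.val h))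
    have hy1 : 1 < w (yE M1 x g 0) := by
      rw [htdef, map_inv₀] at hwt
      exact (inv_lt_one₀ (zero_lt_iff.mpr ((Valuation.ne_zero_iff _).mpr (hy0 0)))).mp hwt
    obtain ⟨j0, hj0⟩ := hval w.valuationSubring (fun a => hk a)
    have hle : ∀ i j, w (x i * (MvPolynomial.aeval x (g j)) ^ M1) ≤ w (yE M1 x g j0) :=
      fun i j => ((Valuation.isEquiv_valuation_valuationSubring w) _ _).mpr (hj0 i j)
    have hj00 : j0 = 0 := by
      by_contra hne
      obtain ⟨j1, rfl⟩ := Fin.exists_succ_eq.mpr hne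
      have h1 := hle 0 0
      rw [hy] at h1
      exact absurd hy1 (not_lt.mpr h1)
    subst hj00
    have hG0 : 0 < w (MvPolynomial.aeval x (g 0)) ^ M1 :=
      pow_pos (zero_lt_iff.mpr ((Valuation.ne_zero_iff _).mpr (hG 0))) _
    have hxle : w (x j) ≤ w (x 0) := by
      have h1 := hle j 0
      unfold yE at h1
      rw [map_mul, map_mul, map_pow] at h1
      exact le_of_mul_le_mul_right h1 hG0
    have hxe : w (x j) = w (x 0) := le_antisymm hxle hle0
    obtain ⟨i, rfl⟩ := Fin.exists_succ_eq.mpr hj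
    have h1 := hy i
    unfold yE at h1
    rw [map_mul, map_pow, hxe] at h1
    have hGi : w (MvPolynomial.aeval x (g i.succ)) ≠ 0 := (Valuation.ne_zero_iff _).mpr (hG _)
    have hGz : w (MvPolynomial.aeval x (g 0)) ≠ 0 := (Valuation.ne_zero_iff _).mpr (hG _)
    have hwx0 : w (x 0) ≠ 0 := (Valuation.ne_zero_iff _).mpr hx0
    have h2 : w t = (w (MvPolynomial.aeval x (g i.succ)) / w (MvPolynomial.aeval x (g 0))) ^ M1 := by
      rw [htdef, map_inv₀]
      unfold yE
      rw [map_mul, map_pow, div_pow, eq_div_iff (pow_ne_zero _ hGz), mul_inv, mul_assoc,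
        inv_mul_cancel₀ (pow_ne_zero _ hGz), mul_one]
      exact (eq_inv_of_mul_eq_one_right h1).symm
    obtain ⟨q, hq⟩ := hℓM
    refine ⟨q * log (w (MvPolynomial.aeval x (g i.succ)) / w (MvPolynomial.aeval x (g 0))), ?_⟩
    rw [h2]
    conv_lhs => rw [← exp_log (div_ne_zero hGi hGz)]
    rw [← exp_nsmul, exp_inj, nsmul_eq_mul]
    conv_lhs => rw [hq]
    push_cast
    ring
  · intro w hw hwt hs hgood
    obtain ⟨c1, c2, c3, c4⟩ := hcore w hw hwt hgood
    have h1 := surj_one w c3 c2 hgenκ hs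
    refine ⟨?_, ?_⟩
    · rw [htdef, map_inv₀, c1, h1, ← exp_nsmul, ← exp_neg, exp_inj]
      simp
    · intro z hz
      obtain ⟨a, ha⟩ := residue_pol w c3 c2 hgenκ z hz
      obtain ⟨b, hb, hab⟩ := c4 a a.2
      refine ⟨⟨b, hb⟩, ?_⟩
      have h2 : z - b = (z - algebraMap κ E a) + ((a : E) - b) := by
        change z - b = (z - (a : E)) + ((a : E) - b)
        ring
      change w (z - b) < 1
      rw [h2]
      exact w.map_add_lt ha hab
  · intro w w' hw hwt hw' hwt' hgood hgood'
    obtain ⟨c1, c2, c3, c4⟩ := hcore w hw hwt hgood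
    obtain ⟨d1, d2, d3, d4⟩ := hcore w' hw' hwt' hgood'
    exact good_equiv w w' c3 d3 c2 d2 hgenκ
  · intro a
    by_cases ha : a = 0
    · rw [ha, map_zero]; exact O.zero_mem
    · exact (O.valuation_le_one_iff _).mp
        (hlamO a a.2 (fun h => ha (Subtype.ext h))).le
  · rw [htdef, map_inv₀, y0_val M1 G0 x g O.valuation hg hkO hc hx0 hgoodO]
    exact inv_lt_one_of_one_lt₀ (one_lt_pow₀ hOx (by omega))
  · intro w hw hwt hwO j hj
    by_contra hle
    push Not at hle
    have hxj : w (x j) ≠ 0 := (Valuation.ne_zero_iff _).mpr (hx.ne_zero j)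
    have h1 : w (x 0 / x j) ≤ 1 := by
      rw [map_div₀, div_le_one₀ (zero_lt_iff.mpr hxj)]
      exact hle
    have h2 : x 0 / x j ∈ O := hwO h1
    have h3 := (O.valuation_le_one_iff _).mpr h2
    rw [map_div₀, div_le_one₀ (zero_lt_iff.mpr ((Valuation.ne_zero_iff _).mpr (hx.ne_zero j)))] at h3
    exact absurd (hgoodO j hj) (not_lt.mpr h3)

end fin

end Pool.Agent.Helper93.VD
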