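import Mathlib
import Pool.Agent.Helper14D.Stm
import Pool.Agent.Helper93.VD.F

set_option autoImplicit false

open MvPolynomial

namespace Pool.Agent.Helper93.VD

open Pool.Agent.Helper14D

theorem t_deg : S_deg := by
  intro k _ _ N M1 G0 ℓ hN hℓ hℓM hM g hg hc hval
  let E := FractionRing (MvPolynomial (Fin (N + 1)) k)
  let x : Fin (N + 1) → E := fun i => algebraMap (MvPolynomial (Fin (N + 1)) k) E (X i)
  have hae : ∀ p : MvPolynomial (Fin (N + 1)) k, MvPolynomial.aeval x p
      = algebraMap (MvPolynomial (Fin (N + 1)) k) E p := by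
    intro p
    have h1 : (MvPolynomial.aeval x : MvPolynomial (Fin (N + 1)) k →ₐ[k] E)
        = IsScalarTower.toAlgHom k (MvPolynomial (Fin (N + 1)) k) E := by
      apply MvPolynomial.algHom_ext
      intro i
      rw [MvPolynomial.aeval_X]
      rfl
    rw [h1]
    rfl
  have hinj : Function.Injective (algebraMap (MvPolynomial (Fin (N + 1)) k) E) :=
    IsFractionRing.injective _ _
  have hx : AlgebraicIndependent k x := by
    intro p q hpq
    apply hinj
    rw [← hae, ← hae]
    exact hpq
  have hgen : IntermediateField.adjoin k (Set.range x) = ⊤ := by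
    rw [← top_le_iff]
    intro z _
    obtain ⟨a, b, hb, rfl⟩ := IsFractionRing.div_surjective (A := MvPolynomial (Fin (N + 1)) k) z
    rw [← hae, ← hae]
    exact div_mem
      (aeval_mem _ _ (fun i => IntermediateField.subset_adjoin k _ (Set.mem_range_self i)) a)
      (aeval_mem _ _ (fun i => IntermediateField.subset_adjoin k _ (Set.mem_range_self i)) b)
  have hy : ∀ j, yE M1 x g j
      = algebraMap (MvPolynomial (Fin (N + 1)) k) E (X j * g j ^ M1) := by
    intro j
    unfold yE
    rw [hae, map_mul, map_pow]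
  have hval' : ∀ O : ValuationSubring E, (∀ a : k, algebraMap k E a ∈ O) → ∃ j0, ∀ i j,
      O.valuation (x i * (MvPolynomial.aeval x (g j)) ^ M1) ≤ O.valuation (yE M1 x g j0) := by
    intro O hO
    obtain ⟨j0, hj0⟩ := hval O hO
    refine ⟨j0, fun i j => ?_⟩
    rw [hy, hae]
    have h1 := hj0 i j
    unfold vl at h1
    rw [map_mul (algebraMap (MvPolynomial (Fin (N + 1)) k) E), map_pow] at h1
    exact h1
  obtain ⟨a1, a2, a3⟩ := main M1 G0 x g ℓ hN hℓ hℓM hM hx hgen hg hc hval'
  have hr : Set.range (yE M1 x g) = Set.range (fun j =>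
      algebraMap (MvPolynomial (Fin (N + 1)) k) E (X j * g j ^ M1)) := by
    congr 1
    funext j
    exact hy j
  rw [hr] at a2 a3
  refine ⟨?_, a2, a3⟩
  intro p q hpq
  apply a1
  have h1 : ∀ p : MvPolynomial (Fin (N + 1)) k, MvPolynomial.aeval (yE M1 x g) p
      = algebraMap (MvPolynomial (Fin (N + 1)) k) E
        (MvPolynomial.aeval (fun j => X j * g j ^ M1) p) := by
    intro p
    have h2 : yE M1 x g = fun j => IsScalarTower.toAlgHom k (MvPolynomial (Fin (N + 1)) k) E
        (X j * g j ^ M1) := by
      funext j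
      exact hy j
    rw [h2, ← MvPolynomial.comp_aeval_apply]
    rfl
  rw [h1, h1]
  exact congrArg _ hpq

end Pool.Agent.Helper93.VD
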